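import Pool.Agent.helper4.EC.Spec

/-!
# Row `ec:S3` (MP_ee5996_co)
-/

set_option autoImplicit false

namespace Pool.Agent.helper4.EC

open Finset

universe u

theorem S3 (h1 : SA_stmt.{u}) (h2 : TB_stmt.{u}) : S3_stmt.{u} := by
  intro V _ G hC hCI hDF hSB X Y Z p q p' q' hX hY hZ hs hYe hs' hZe hXZ hnadj
  obtain ⟨hpX, hqX, hpq, -⟩ := id hs
  obtain ⟨hp'Y, hq'Y, hp'q', -⟩ := id hs'
  have hqe : q ∉ X.erase p := fun h => hqX (mem_of_mem_erase h)
  have hYq : Y.erase q = X.erase p := by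
    rw [hYe, erase_insert hqe]
  have hqY : q ∈ Y := by rw [hYe]; exact mem_insert_self _ _
  have hne : q ≠ p' := by
    intro he
    rw [← he, hYq] at hZe
    by_cases hq'p : q' = p
    · rw [hq'p, insert_erase hpX] at hZe
      exact hXZ hZe.symm
    · have hq'X : q' ∉ X := by
        intro h
        apply hq'Y
        rw [hYe]
        exact mem_insert_of_mem (mem_erase.2 ⟨hq'p, h⟩)
      have hq'Z : q' ∈ Z := by rw [hZe]; exact mem_insert_self _ _
      obtain ⟨w, hw, hwa⟩ := hX.1.2 q' hq'X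
      have hwp : w = p := by
        by_contra hc
        have hwZ : w ∈ Z := by
          rw [hZe]
          exact mem_insert_of_mem (mem_erase.2 ⟨hc, hw⟩)
        exact hZ.1.1 w hwZ q' hq'Z hwa
      rw [hwp] at hwa
      refine hnadj hX hZ ⟨?_, p, hpX, q', hq'Z, hwa, hZe⟩
      intro h
      exact hXZ (congrArg Subtype.val h)
  have hp'e : p' ∈ X.erase p := by
    rw [hYe] at hp'Y
    rcases mem_insert.1 hp'Y with h | h
    · exact absurd h.symm hne
    · exact h
  have hp'X : p' ∈ X := mem_of_mem_erase hp'e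
  have hpY : p ∉ Y := by
    rw [hYe]
    intro h
    rcases mem_insert.1 h with h | h
    · exact hpq.ne h
    · exact (notMem_erase p X) h
  have hsl : Sl G Y q p := by
    refine ⟨hqY, hpY, hpq.symm, ?_⟩
    rw [hYq, insert_erase hpX]
    exact hX
  obtain ⟨v, v1, v2, v3, v4⟩ := h2 V G hC hCI hDF hSB Y q p p' q' hY hsl hs' hne
  have hqZ : q ∈ Z := by
    rw [hZe]
    exact mem_insert_of_mem (mem_erase.2 ⟨hne, hqY⟩)
  have hq'Z : q' ∈ Z := by rw [hZe]; exact mem_insert_self _ _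
  refine ⟨v, v1, v2.symm, ?_, v3, ?_, fun h => v4 h.symm, hne, hY.1.1 q hqY p' hp'Y⟩
  · rintro rfl
    exact hX.1.1 p' hp'X p hpX v2
  · rintro rfl
    exact hZ.1.1 q hqZ v hq'Z v1

end Pool.Agent.helper4.EC
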