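import Pool.Agent.helper4.EC.Spec

/-!
# Row `ec:LN` (MP_ee5996_co)
-/

set_option autoImplicit false

namespace Pool.Agent.helper4.EC

open Finset

universe u

theorem LN : LN_stmt.{u} := by
  intro V _ G X x y z hy hz hne
  obtain ⟨-, hyX, -, hY⟩ := hy
  obtain ⟨-, hzX, -, hZ⟩ := hz
  have hyZ : y ∉ insert z (X.erase x) := by
    intro h
    rcases mem_insert.1 h with h | h
    · exact hne h
    · exact hyX (mem_of_mem_erase h)
  obtain ⟨w, hw, hwa⟩ := hZ.1.2 y hyZ
  rcases mem_insert.1 hw with h | h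
  · rw [h] at hwa
    exact hwa.symm
  · exact absurd hwa (hY.1.1 w (mem_insert_of_mem h) y (mem_insert_self _ _))

end Pool.Agent.helper4.EC
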